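import Mathlib

set_option autoImplicit false

/-!
# Numerical inequalities for the exact Frankl bound
-/

namespace Pool.Agent.H79.VC

open Filter Real

/-- `log ((x ^ b + 1) ^ b) ≤ b ^ 2 (log x + 1)` for `x ≥ 1`. -/
lemma log_tower (b : ℕ) (x : ℝ) (hx : 1 ≤ x) :
    Real.log ((x ^ b + 1) ^ b) ≤ (b : ℝ) ^ 2 * (Real.log x + 1) := by
  have hxb : (1 : ℝ) ≤ x ^ b := one_le_pow₀ hx
  have h1 : Real.log (x ^ b + 1) ≤ b * Real.log x + 1 := by
    calc Real.log (x ^ b + 1) ≤ Real.log (x ^ b * 2) :=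
          Real.log_le_log (by positivity) (by linarith)
      _ = Real.log (x ^ b) + Real.log 2 := Real.log_mul (by positivity) (by norm_num)
      _ ≤ b * Real.log x + 1 := by
        rw [Real.log_pow]
        have := Real.log_two_lt_d9
        linarith
  rw [Real.log_pow]
  rcases Nat.eq_zero_or_pos b with h0 | h0
  · subst h0; simp
  · have hb : (1 : ℝ) ≤ b := by exact_mod_cast h0
    have hlx : 0 ≤ Real.log x := Real.log_nonneg hx
    calc (b : ℝ) * Real.log (x ^ b + 1) ≤ b * (b * Real.log x + 1) :=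
          mul_le_mul_of_nonneg_left h1 (by positivity)
      _ = b ^ 2 * Real.log x + b := by ring
      _ ≤ b ^ 2 * (Real.log x + 1) := by nlinarith

/-- The general form: `K`, `K1` only through the bounds for their logarithms. -/
theorem numbers_gen (b : ℕ) (c : ℝ) (hc : 1 ≤ c) : ∃ L0 : ℝ, 3 ≤ L0 ∧ ∀ L : ℝ, L0 ≤ L →
    ∀ K K1 e1 : ℝ, 1 ≤ K → Real.log K ≤ (b : ℝ) ^ 2 * (2 * Real.log L + 3) →
      Real.log K1 ≤ (b : ℝ) ^ 2 * (Real.log (c * Real.log L) + 1) → 0 ≤ e1 →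
      e1 ≤ 1 / (96 * ((b : ℝ) ^ 2 + 1)) →
      32 * (1 / L + Real.log K / (2 * L)) ≤ 1 ∧
        Real.log 2 + 2 * (1 / L) * L + (2 * (1 / L) + 2 * e1) * Real.log K + Real.log K1 <
          (1 / 4) * Real.log (1 / (48 * (1 / L + Real.log K / (2 * L)))) := by
  set d : ℝ := 1 + (5 / 2) * (b : ℝ) ^ 2 with hd
  have hd1 : 1 ≤ d := by nlinarith [sq_nonneg (b : ℝ)]
  set E : ℝ := 5 + (b : ℝ) ^ 2 * (Real.log c + 1) + (1 / 4) * Real.log (48 * d) with hE
  have hlc : 0 ≤ Real.log c := Real.log_nonneg hc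
  have h48 : 0 ≤ Real.log (48 * d) := Real.log_nonneg (by linarith)
  have hE0 : 0 ≤ E := by positivity
  have h1 : ∀ᶠ l : ℝ in atTop, |Real.log l| ≤ (1 / (24 * ((b : ℝ) ^ 2 + 1))) * |l| := by
    have h := isLittleO_log_id_atTop.bound
      (show (0 : ℝ) < 1 / (24 * ((b : ℝ) ^ 2 + 1)) by positivity)
    filter_upwards [h] with l hl
    simpa using hl
  have h2 : ∀ᶠ l : ℝ in atTop, 12 * E + 1 ≤ l := eventually_ge_atTop _
  have h4 := Real.tendsto_log_atTop.eventually (h1.and h2)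
  have h5 : ∀ᶠ L : ℝ in atTop, |Real.log L| ≤ (1 / (48 * d)) * |L| := by
    have h := isLittleO_log_id_atTop.bound (show (0 : ℝ) < 1 / (48 * d) by positivity)
    filter_upwards [h] with l hl
    simpa using hl
  obtain ⟨L0, hL0⟩ := eventually_atTop.1 (h4.and h5)
  refine ⟨max L0 3, le_max_right _ _, fun L hL K K1 e1 hK hlK hlK1 he1 he1' => ?_⟩
  obtain ⟨⟨g1, g2⟩, g5⟩ := hL0 L ((le_max_left _ _).trans hL)
  have hL3 : 3 ≤ L := (le_max_right _ _).trans hL
  have hLpos : 0 < L := by linarith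
  set l := Real.log L with hl
  have hl1 : 1 ≤ l := by linarith
  have hlpos : 0 < l := by linarith
  rw [abs_of_pos hlpos] at g1
  rw [abs_of_pos hlpos, abs_of_pos hLpos] at g5
  have hlK0 : 0 ≤ Real.log K := Real.log_nonneg hK
  have hb2 : 0 ≤ (b : ℝ) ^ 2 := sq_nonneg _
  -- `log K ≤ 5 b² l`
  have hK5 : Real.log K ≤ 5 * (b : ℝ) ^ 2 * l := by
    refine hlK.trans ?_
    nlinarith
  have heta : 1 / L + Real.log K / (2 * L) ≤ d * l / L := by
    have : 1 / L + Real.log K / (2 * L) = (1 + Real.log K / 2) / L := by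
      field_simp
    rw [this]
    apply div_le_div_of_nonneg_right _ hLpos.le
    rw [hd]
    nlinarith
  have hetapos : 0 < 1 / L + Real.log K / (2 * L) := by positivity
  have hdl : d * l / L ≤ 1 / 48 := by
    rw [div_le_iff₀ hLpos]
    have h6 : d * l ≤ d * (1 / (48 * d) * L) := mul_le_mul_of_nonneg_left g5 (by linarith)
    have h7 : d * (1 / (48 * d) * L) = 1 / 48 * L := by
      have : d ≠ 0 := by positivity
      field_simp
    linarith
  refine ⟨by linarith, ?_⟩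
  -- the right hand side
  have hrhs : l - Real.log (48 * d) - Real.log l ≤
      Real.log (1 / (48 * (1 / L + Real.log K / (2 * L)))) := by
    have h6 : l - Real.log (48 * d) - Real.log l = Real.log (L / (48 * d * l)) := by
      rw [Real.log_div hLpos.ne' (by positivity), Real.log_mul (by positivity) hlpos.ne']
      ring
    rw [h6]
    apply Real.log_le_log (by positivity)
    rw [div_le_div_iff₀ (by positivity) (by positivity)]
    have h7 : 1 / L + Real.log K / (2 * L) ≤ d * l / L := heta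
    have h8 : L * (1 / L + Real.log K / (2 * L)) ≤ d * l := by
      calc L * (1 / L + Real.log K / (2 * L)) ≤ L * (d * l / L) :=
            mul_le_mul_of_nonneg_left h7 hLpos.le
        _ = d * l := by field_simp
    nlinarith
  -- the left hand side
  have hll : 0 ≤ Real.log l := Real.log_nonneg hl1
  rw [abs_of_nonneg hll] at g1
  have hbl : ((b : ℝ) ^ 2 + 1) * Real.log l ≤ (1 / 24) * l := by
    have h6 : ((b : ℝ) ^ 2 + 1) * Real.log l ≤
        ((b : ℝ) ^ 2 + 1) * (1 / (24 * ((b : ℝ) ^ 2 + 1)) * l) :=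
      mul_le_mul_of_nonneg_left g1 (by positivity)
    have h7 : ((b : ℝ) ^ 2 + 1) * (1 / (24 * ((b : ℝ) ^ 2 + 1)) * l) = (1 / 24) * l := by
      have : (b : ℝ) ^ 2 + 1 ≠ 0 := by positivity
      field_simp
    linarith
  have ha : 2 * (1 / L) * L = 2 := by field_simp
  have hb' : 2 * (1 / L) * Real.log K ≤ 1 := by
    have h6 : Real.log K / (2 * L) ≤ 1 / 48 := by
      have : 0 < 1 / L := by positivity
      linarith
    have h7 : 2 * (1 / L) * Real.log K = 4 * (Real.log K / (2 * L)) := by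
      field_simp; ring
    rw [h7]; linarith
  have hc' : 2 * e1 * Real.log K ≤ (1 / 24) * l + 1 := by
    have h6 : 2 * e1 * Real.log K ≤
        2 * (1 / (96 * ((b : ℝ) ^ 2 + 1))) * ((b : ℝ) ^ 2 * (2 * l + 3)) := by
      apply mul_le_mul _ hlK hlK0 (by positivity)
      linarith
    have h7 : 2 * (1 / (96 * ((b : ℝ) ^ 2 + 1))) * ((b : ℝ) ^ 2 * (2 * l + 3)) =
        ((b : ℝ) ^ 2 / ((b : ℝ) ^ 2 + 1)) * ((1 / 48) * (2 * l + 3)) := by
      have : (b : ℝ) ^ 2 + 1 ≠ 0 := by positivity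
      field_simp
      ring
    have h8 : (b : ℝ) ^ 2 / ((b : ℝ) ^ 2 + 1) ≤ 1 := by
      rw [div_le_one (by positivity)]; linarith
    have h9 : ((b : ℝ) ^ 2 / ((b : ℝ) ^ 2 + 1)) * ((1 / 48) * (2 * l + 3)) ≤
        1 * ((1 / 48) * (2 * l + 3)) := mul_le_mul_of_nonneg_right h8 (by positivity)
    linarith
  have hK1' : Real.log K1 ≤ (b : ℝ) ^ 2 * (Real.log c + 1) + (b : ℝ) ^ 2 * Real.log l := by
    rw [Real.log_mul (by positivity) hlpos.ne'] at hlK1
    linarith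
  have h2' := Real.log_two_lt_d9
  have hfin : Real.log 2 + 2 * (1 / L) * L + (2 * (1 / L) + 2 * e1) * Real.log K +
      Real.log K1 ≤ 5 + (1 / 24) * l + (b : ℝ) ^ 2 * (Real.log c + 1) +
        (b : ℝ) ^ 2 * Real.log l := by
    rw [add_mul, ha]
    linarith
  have h10 : (b : ℝ) ^ 2 * Real.log l + Real.log l ≤ (1 / 24) * l := by linarith
  have h11 : E = 5 + (b : ℝ) ^ 2 * (Real.log c + 1) + (1 / 4) * Real.log (48 * d) := hE
  linarith

/-- The numbers of (I4). -/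
theorem numbers (b : ℕ) : ∃ L0 : ℝ, 3 ≤ L0 ∧ ∀ L : ℝ, L0 ≤ L →
    ∀ (t t1 : ℕ) (K K1 e1 : ℝ), (t : ℝ) ≤ 2 * L ^ 2 + 2 → 1 ≤ K →
      K ≤ (((t : ℝ) + 1) ^ b + 1) ^ b → e1 = 1 / (96 * ((b : ℝ) ^ 2 + 1)) →
      (t1 : ℝ) ≤ 2 * Real.log K / e1 + 2 → 1 ≤ K1 → K1 ≤ (((t1 : ℝ) + 1) ^ b + 1) ^ b →
      32 * (1 / L + Real.log K / (2 * L)) ≤ 1 ∧
        Real.log 2 + 2 * (1 / L) * L + (2 * (1 / L) + 2 * e1) * Real.log K + Real.log K1 <
          (1 / 4) * Real.log (1 / (48 * (1 / L + Real.log K / (2 * L)))) := by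
  set c : ℝ := 192 * ((b : ℝ) ^ 2 + 1) * (5 * (b : ℝ) ^ 2) + 3 with hcdef
  have hc : 1 ≤ c := by
    have : 0 ≤ 192 * ((b : ℝ) ^ 2 + 1) * (5 * (b : ℝ) ^ 2) := by positivity
    linarith
  obtain ⟨L0, h3, h⟩ := numbers_gen b c hc
  refine ⟨L0, h3, fun L hL t t1 K K1 e1 ht hK hKt he1 ht1 hK1 hK1t => ?_⟩
  have hL3 : 3 ≤ L := h3.trans hL
  have hLpos : 0 < L := by linarith
  have hl1 : 1 ≤ Real.log L := by
    rw [Real.le_log_iff_exp_le hLpos]
    have := Real.exp_one_lt_d9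
    linarith
  have hb2 : 0 ≤ (b : ℝ) ^ 2 := sq_nonneg _
  have ht0 : (0 : ℝ) ≤ t := Nat.cast_nonneg _
  have ht10 : (0 : ℝ) ≤ t1 := Nat.cast_nonneg _
  have hlK : Real.log K ≤ (b : ℝ) ^ 2 * (2 * Real.log L + 3) := by
    calc Real.log K ≤ Real.log ((((t : ℝ) + 1) ^ b + 1) ^ b) :=
          Real.log_le_log (by linarith) hKt
      _ ≤ (b : ℝ) ^ 2 * (Real.log ((t : ℝ) + 1) + 1) := log_tower b _ (by linarith)
      _ ≤ (b : ℝ) ^ 2 * (2 * Real.log L + 3) := by
        apply mul_le_mul_of_nonneg_left _ hb2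
        have h5 : Real.log ((t : ℝ) + 1) ≤ Real.log (4 * L ^ 2) := by
          apply Real.log_le_log (by linarith)
          nlinarith
        have h6 : Real.log (4 * L ^ 2) = 2 * Real.log 2 + 2 * Real.log L := by
          rw [Real.log_mul (by norm_num) (by positivity), Real.log_pow,
            show (4 : ℝ) = 2 ^ 2 by norm_num, Real.log_pow]
          push_cast
          ring
        have := Real.log_two_lt_d9
        linarith
  have hlK0 : 0 ≤ Real.log K := Real.log_nonneg hK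
  have hK5 : Real.log K ≤ 5 * (b : ℝ) ^ 2 * Real.log L := by
    refine hlK.trans ?_
    nlinarith
  have ht1c : (t1 : ℝ) + 1 ≤ c * Real.log L := by
    have h5 : 2 * Real.log K / e1 = 192 * ((b : ℝ) ^ 2 + 1) * Real.log K := by
      rw [he1]
      have : (b : ℝ) ^ 2 + 1 ≠ 0 := by positivity
      field_simp
      ring
    rw [h5] at ht1
    have h6 : 192 * ((b : ℝ) ^ 2 + 1) * Real.log K ≤
        192 * ((b : ℝ) ^ 2 + 1) * (5 * (b : ℝ) ^ 2 * Real.log L) :=
      mul_le_mul_of_nonneg_left hK5 (by positivity)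
    calc (t1 : ℝ) + 1 ≤ 192 * ((b : ℝ) ^ 2 + 1) * (5 * (b : ℝ) ^ 2 * Real.log L) + 3 := by
          linarith
      _ ≤ c * Real.log L := by rw [hcdef]; nlinarith
  have hlK1 : Real.log K1 ≤ (b : ℝ) ^ 2 * (Real.log (c * Real.log L) + 1) := by
    calc Real.log K1 ≤ Real.log ((((t1 : ℝ) + 1) ^ b + 1) ^ b) :=
          Real.log_le_log (by linarith) hK1t
      _ ≤ (b : ℝ) ^ 2 * (Real.log ((t1 : ℝ) + 1) + 1) := log_tower b _ (by linarith)
      _ ≤ _ := by
        apply mul_le_mul_of_nonneg_left _ hb2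
        have := Real.log_le_log (by linarith : (0 : ℝ) < (t1 : ℝ) + 1) ht1c
        linarith
  exact h L hL K K1 e1 hK hlK hlK1 (by rw [he1]; positivity) he1.le

/-- The numbers with the bound `t1 ≤ log (((t + 1) ^ b + 1) ^ (2 b + 2)) / e1 + 1`. -/
theorem numbers73 (b : ℕ) : ∃ L0 : ℝ, 3 ≤ L0 ∧ ∀ L : ℝ, L0 ≤ L →
    ∀ (t t1 : ℕ) (K K1 e1 : ℝ), (t : ℝ) ≤ 2 * L ^ 2 + 2 → 1 ≤ K →
      K ≤ (((t : ℝ) + 1) ^ b + 1) ^ b → e1 = 1 / (96 * ((b : ℝ) ^ 2 + 1)) →
      (t1 : ℝ) ≤ Real.log ((((t : ℝ) + 1) ^ b + 1) ^ (2 * b + 2)) / e1 + 2 → 1 ≤ K1 →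
      K1 ≤ (((t1 : ℝ) + 1) ^ b + 1) ^ b →
      32 * (1 / L + Real.log K / (2 * L)) ≤ 1 ∧
        Real.log 2 + 2 * (1 / L) * L + (2 * (1 / L) + 2 * e1) * Real.log K + Real.log K1 <
          (1 / 4) * Real.log (1 / (48 * (1 / L + Real.log K / (2 * L)))) := by
  set c : ℝ := 96 * ((b : ℝ) ^ 2 + 1) * ((2 * b + 2) * (4 * b + 1)) + 3 with hcdef
  have hc : 1 ≤ c := by
    have : 0 ≤ 96 * ((b : ℝ) ^ 2 + 1) * ((2 * b + 2) * (4 * b + 1)) := by positivity
    linarith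
  obtain ⟨L0, h3, h⟩ := numbers_gen b c hc
  refine ⟨L0, h3, fun L hL t t1 K K1 e1 ht hK hKt he1 ht1 hK1 hK1t => ?_⟩
  have hL3 : 3 ≤ L := h3.trans hL
  have hLpos : 0 < L := by linarith
  have hl1 : 1 ≤ Real.log L := by
    rw [Real.le_log_iff_exp_le hLpos]
    have := Real.exp_one_lt_d9
    linarith
  have hb0 : (0 : ℝ) ≤ b := Nat.cast_nonneg _
  have hb2 : 0 ≤ (b : ℝ) ^ 2 := sq_nonneg _
  have ht0 : (0 : ℝ) ≤ t := Nat.cast_nonneg _
  have ht10 : (0 : ℝ) ≤ t1 := Nat.cast_nonneg _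
  have h2' := Real.log_two_lt_d9
  have hlt : Real.log ((t : ℝ) + 1) ≤ 2 * Real.log L + 2 := by
    have h5 : Real.log ((t : ℝ) + 1) ≤ Real.log (4 * L ^ 2) := by
      apply Real.log_le_log (by linarith)
      nlinarith
    have h6 : Real.log (4 * L ^ 2) = 2 * Real.log 2 + 2 * Real.log L := by
      rw [Real.log_mul (by norm_num) (by positivity), Real.log_pow,
        show (4 : ℝ) = 2 ^ 2 by norm_num, Real.log_pow]
      push_cast
      ring
    linarith
  have hlK : Real.log K ≤ (b : ℝ) ^ 2 * (2 * Real.log L + 3) := by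
    calc Real.log K ≤ Real.log ((((t : ℝ) + 1) ^ b + 1) ^ b) :=
          Real.log_le_log (by linarith) hKt
      _ ≤ (b : ℝ) ^ 2 * (Real.log ((t : ℝ) + 1) + 1) := log_tower b _ (by linarith)
      _ ≤ (b : ℝ) ^ 2 * (2 * Real.log L + 3) := by
        apply mul_le_mul_of_nonneg_left _ hb2
        linarith
  have hX : Real.log (((t : ℝ) + 1) ^ b + 1) ≤ (4 * b + 1) * Real.log L := by
    have hxb : (1 : ℝ) ≤ ((t : ℝ) + 1) ^ b := one_le_pow₀ (by linarith)
    calc Real.log (((t : ℝ) + 1) ^ b + 1) ≤ Real.log (((t : ℝ) + 1) ^ b * 2) :=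
          Real.log_le_log (by positivity) (by linarith)
      _ = b * Real.log ((t : ℝ) + 1) + Real.log 2 := by
        rw [Real.log_mul (by positivity) (by norm_num), Real.log_pow]
      _ ≤ b * (2 * Real.log L + 2) + 1 := by
        have := mul_le_mul_of_nonneg_left hlt hb0
        linarith
      _ ≤ (4 * b + 1) * Real.log L := by nlinarith
  have ht1c : (t1 : ℝ) + 1 ≤ c * Real.log L := by
    have h5 : Real.log ((((t : ℝ) + 1) ^ b + 1) ^ (2 * b + 2)) / e1 =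
        96 * ((b : ℝ) ^ 2 + 1) * ((2 * b + 2) * Real.log (((t : ℝ) + 1) ^ b + 1)) := by
      rw [he1, Real.log_pow]
      have : (b : ℝ) ^ 2 + 1 ≠ 0 := by positivity
      push_cast
      field_simp
    rw [h5] at ht1
    have h6 : 96 * ((b : ℝ) ^ 2 + 1) * ((2 * b + 2) * Real.log (((t : ℝ) + 1) ^ b + 1)) ≤
        96 * ((b : ℝ) ^ 2 + 1) * ((2 * b + 2) * ((4 * b + 1) * Real.log L)) := by
      apply mul_le_mul_of_nonneg_left _ (by positivity)
      exact mul_le_mul_of_nonneg_left hX (by positivity)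
    calc (t1 : ℝ) + 1 ≤ 96 * ((b : ℝ) ^ 2 + 1) * ((2 * b + 2) * ((4 * b + 1) * Real.log L)) + 3 := by
          linarith
      _ ≤ c * Real.log L := by rw [hcdef]; nlinarith
  have hlK1 : Real.log K1 ≤ (b : ℝ) ^ 2 * (Real.log (c * Real.log L) + 1) := by
    calc Real.log K1 ≤ Real.log ((((t1 : ℝ) + 1) ^ b + 1) ^ b) :=
          Real.log_le_log (by linarith) hK1t
      _ ≤ (b : ℝ) ^ 2 * (Real.log ((t1 : ℝ) + 1) + 1) := log_tower b _ (by linarith)
      _ ≤ _ := by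
        apply mul_le_mul_of_nonneg_left _ hb2
        have := Real.log_le_log (by linarith : (0 : ℝ) < (t1 : ℝ) + 1) ht1c
        linarith
  exact h L hL K K1 e1 hK hlK hlK1 (by rw [he1]; positivity) he1.le

end Pool.Agent.H79.VC
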